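import Mathlib
import Pool.Agent.H451.XP.Def
import Pool.Agent.H451.XV.Def
import Pool.Agent.H451.XV.A4

/-!
# The conjecture of Beilinson in all odd degrees for a positive proportion of all products of diagonal cubics

Let `K = ℚ(√-3)` and `X = V × Y_1 × ⋯ × Y_r` with any `r ≥ 1`, where

* `V : a_1 x_1 ^ 3 + ⋯ + a_m x_m ^ 3 = 0`, `m = 3, 5, 7`, is a curve, a threefold or a fivefold,
* `Y_t : b_{t,1} y_1 ^ 3 + ⋯ + b_{t,n_t} y_{n_t} ^ 3 = 0`, `n_t = 4` or `2`, is a cubic surface, or the spectrum
  of `K[y] / (b_{t,1} y ^ 3 + b_{t,2})` (so that a product with it is the base change to the extension of `K`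
  generated by a cube root of `b_{t,2} / b_{t,1}`),

all coefficients in `𝓞 K`, not zero; a variety over `K` of dimension `m - 2 + 2 #{t | n_t = 4}`, which we
consider as a smooth projective variety over `ℚ`.  Its odd cohomology is in `1 + 2 #{t | n_t = 4}` degrees
`2 i - 1`, and for each `i` the conjecture is about `V^i = CH^i(X)⁰ ⊗ ℚ`, about the `L`-function of
`H^(2 i - 1)(X)` at the centre `s = i`, and about the period matrix `Π_i`.

By classical work (Weil, Shioda and Katsura, Deligne; not in Lean) the motive `h^(2 i - 1)(X)` is the direct sum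
of the `h¹(E_{S,θ})(1 - i)` over the classes `(S, c)` of the codimension `i` (`Cod`), `θ = ty (c)`, where
`E_{S,θ} : y ^ 2 + D y = x ^ 3` with `D = D_{S,θ} = ∏ a_i · ∏_{i ∈ S} a_i · ∏_t (∏ b_{t,i} · ∏_{i ∈ θ_t} b_{t,i})`
(`DX`); `S` is a set of `h = (m - 3) / 2` of the `m` indices, and for each `t` the factor of `t` is `1` or comes
from a set `θ_t` of half of the `n_t` indices.  So `V^i` is the sum of the `E_{S,θ}(K) ⊗ ℚ`, and `Π_i` is, up to
rational bases, the matrix with the blocks `Π(E_{S,θ})` (`PMX`).  The decomposition of the `L`-functions is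
proved here, from the numbers of points of `X` over all the extensions of the residue fields (`MotX`,
`IsFrobX`), and so is their uniqueness.

We prove, for the `L`-functions without the Euler factors at the primes that divide `3` or a coefficient (the
factors which are left out are rational numbers different from zero at the centre):

* for ALL `X` with coefficients prime to `3` and such that no `D_{S,θ}` is a unit times a cube: for every `i`
  the `L`-function of `H^(2 i - 1)(X)` is entire, and its value at the centre `i` is `q det Π_i` with a rational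
  number `q`, which may be zero (`FormulaX`);
* for a positive proportion of ALL `X`, by the norms of the coefficients, all the parts of the conjecture in
  ALL the odd degrees at once (`AllPartsX`): `V^i = 0` ((i), (ii)), every meromorphic continuation of the
  `L`-function has the order `0 = dim V^i` at the centre ((iii)) and its leading coefficient is `q det Π_i` with
  a rational number `q ≠ 0` ((iv));
* in the boxes `BoxX` with admissible residues (`Res`; they have positive density) all the parts hold if the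
  Selmer groups of the endomorphism `√-3` of all the `E_{S,θ}` have the smallest possible order `3`, and the
  share of these `X` tends to `p_0 ^ (C(m, h) · ∏ (1 + C(n_t, n_t / 2)))`,
  `p_0 = ∏ (1 - 3 ^ (-(2 i + 1))) = 0.639…`.

The case `r = 0` is `DiagonalCubicsByHeight`.  The law of the Selmer groups is the engine of my
`MP_0b9e0b_ag.AllCodimensionsH451`.  The formula for one curve `E_D` is `H508.Y.rat_val` of
`MP_29b22a_nt.MoreThanHalfOfTheTwists` (helper508).
-/

set_option autoImplicit false

namespace Pool.Agent.Results.MP_29b22a_nt.AllCodimensionsH451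

open NumberField IsDedekindDomain Pool.Agent.H451.XP Pool.Agent.H451.XV
open Pool.Agent.H451.TB (SelRoot)
open scoped Classical PeriodPair

/-- **The conjecture of Beilinson in all odd degrees for a positive proportion of all the products of a
diagonal cubic curve, threefold or fivefold with diagonal cubics of dimension `0` and `2`**, and the
rationality of the quotients of all the central values by the determinants of the periods for all of them
that are general and good at `3`. -/
theorem result (K : Type) [Field K] [NumberField K] [IsCyclotomicExtension {3} ℚ K] (m : ℕ)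
    (hm : m = 3 ∨ m = 5 ∨ m = 7) (r : ℕ) (_hr : 0 < r) (n : Fin r → ℕ)
    (hn : ∀ t, n t = 2 ∨ n t = 4) :
    -- (1) the motive, the Frobenius eigenvalues, and the uniqueness of the `L`-functions, for all `X`
    (∀ (a : Fin m → 𝓞 K) (b : ∀ t : Fin r, Fin (n t) → 𝓞 K), MotX a b ∧
      (∃ (ι : Type) (_ : Fintype ι) (deg : ι → ℕ) (α : HeightOneSpectrum (𝓞 K) → ι → ℂ),
        ∀ v, Gdx a b v → IsFrobX a b v deg (α v)) ∧
      ∀ (i : ℕ) (Φ Ψ : ℂ → ℂ), IsLX a b i Φ → IsLX a b i Ψ →
        ∀ s : ℂ, (i : ℝ) + 1 / 2 < s.re → Φ s = Ψ s) ∧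
    -- (2) the period matrices exist and are invertible
    ((∃ δ : K, δ ^ 2 = -3) ∧
      (∀ (a : Fin m → 𝓞 K) (b : ∀ t : Fin r, Fin (n t) → 𝓞 K), (∀ i, a i ≠ 0) →
        (∀ t i, b t i ≠ 0) → ∀ τ : K →+* ℂ,
        ∃ M : Idx m → (∀ t, Ty (n t)) → PeriodPair, IsPerX a b τ M) ∧
      ∀ (τ : K →+* ℂ) (δ : K) (M : Idx m → (∀ t, Ty (n t)) → PeriodPair) (i : ℕ), δ ^ 2 = -3 →
        (PMX τ δ M i).det ≠ 0) ∧
    -- (3) the central values of all the general `X`, in all the odd degrees
    (∀ (a : Fin m → 𝓞 K) (b : ∀ t : Fin r, Fin (n t) → 𝓞 K),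
      (∀ i, ¬ (3 : ℤ) ∣ Algebra.norm ℤ (a i)) → (∀ t i, ¬ (3 : ℤ) ∣ Algebra.norm ℤ (b t i)) →
      (∀ (S : Idx m) (θ : ∀ t, Ty (n t)) (u c : 𝓞 K), IsUnit u → DX a b S.1 θ ≠ u * c ^ 3) →
      FormulaX a b) ∧
    -- (4) all the parts in all the odd degrees for a positive proportion of all `X`
    (∃ c : ℝ, 0 < c ∧ ∃ X₀ : ℕ, ∀ X : ℕ, X₀ ≤ X → c * ((AllX K m n X).ncard : ℝ) ≤
      ({p | p ∈ AllX K m n X ∧ AllPartsX p.1 p.2}.ncard : ℝ)) ∧
    -- (5) the boxes
    (∃ (ρ : Fin m → ℕ) (σ : ∀ t : Fin r, Fin (n t) → ℕ), Res ρ σ) ∧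
    ∀ (ρ : Fin m → ℕ) (σ : ∀ t : Fin r, Fin (n t) → ℕ), Res ρ σ →
      -- (6) they have positive density
      (∃ c : ℝ, 0 < c ∧ ∃ X₀ : ℕ, ∀ X : ℕ, X₀ ≤ X →
        c * (X : ℝ) ^ (m + ∑ t, n t) ≤ ((BoxX K ρ σ X).ncard : ℝ)) ∧
      -- (7) all the parts if the Selmer groups are as small as possible
      (∀ X : ℕ, ∀ p ∈ BoxX K ρ σ X, (∀ (S : Idx m) (θ : ∀ t, Ty (n t)),
        (SelRoot ((DX p.1 p.2 S.1 θ : 𝓞 K) : K)).ncard = 3) → AllPartsX p.1 p.2) ∧
      -- (8) the share of these `X`
      Filter.Tendsto (fun X : ℕ =>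
        ({p | p ∈ BoxX K ρ σ X ∧ ∀ (S : Idx m) (θ : ∀ t, Ty (n t)),
          (SelRoot ((DX p.1 p.2 S.1 θ : 𝓞 K) : K)).ncard = 3}.ncard : ℝ) /
        ((BoxX K ρ σ X).ncard : ℝ)) Filter.atTop
        (nhds ((∏' i : ℕ, (1 - (1 / 3 : ℝ) ^ (2 * i + 1))) ^
          (m.choose ((m - 3) / 2) * ∏ t, (1 + (n t).choose (n t / 2))))) :=
  final_XV K m hm r n hn

end Pool.Agent.Results.MP_29b22a_nt.AllCodimensionsH451
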