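import Mathlib
import Pool.Agent.H451.BB.Def
import Pool.Agent.H451.BB.Def3
import Pool.Agent.H451.JB.Def
import Pool.Agent.H451.PV.Def
import Pool.Agent.H451.PV.A6

/-!
# The conjecture of Beilinson for a positive proportion of all diagonal cubic hypersurfaces of dimension 1, 3, 5

Let `K = ℚ(√-3)`, `m = 3, 5, 7`, and `V = V_a : a_1 x_1 ^ 3 + ⋯ + a_m x_m ^ 3 = 0` with `a_i ∈ 𝓞 K` not
zero, a variety of dimension `n = m - 2` over `K`, which we consider as a smooth projective variety `X` over
`ℚ`.  Its cohomology of odd degree is in the degree `i = m - 2`, so the conjecture is about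
`V^((m-1)/2) = CH^((m-1)/2)(X)⁰ ⊗ ℚ`, about the `L`-function of the middle cohomology, of degree
`2 C(m, h)` (`2`, `10`, `42`) over `K`, `h = (m - 3) / 2`, at the centre `(m - 1) / 2`, and about the
period matrix `Π`, of size `2 C(m, h)`.

For a set `S` of `h` of the `m` indices let `D_S = ∏ a_i · ∏_{i ∈ S} a_i` (`DS`) and
`E_S : y ^ 2 + D_S y = x ^ 3` (`E`).  By classical work (Weil, Shioda and Katsura, Deligne, Bloch and Murre,
Collino; not in Lean) the motive of the middle cohomology of `V` is the sum of the `h¹(E_S)(-h)`, so that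
`V^((m-1)/2)` is the sum of the `E_S(K) ⊗ ℚ` and `Π` is, up to rational bases, the matrix with the blocks
`Π(E_S)` (`PM`).  The decomposition of the `L`-function is proved here, from the numbers of points of `V`
over all the extensions of the residue fields (`Mot`, `IsFrob`).

We prove, for the `L`-function without the Euler factors at the primes that divide `3` or some `a_i` (the
factors which are left out are rational numbers different from zero at the centre):

* for ALL `a` with the `a_i` prime to `3` and such that no `D_S` is a unit times a cube: the `L`-function is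
  entire, and its value at the centre is `q det Π` with a rational number `q`, which may be zero, and it is a
  rational multiple of the number `num a`, which is `(Γ(1/3)³ / 2π) ^ 10` for `m = 5` and
  `(Γ(1/3)³ / 2π) ^ 42` for `m = 7` (`Formula`);
* for a positive proportion of ALL `a`, by the norms of the coefficients, all the parts of the conjecture
  (`AllParts`): `V^((m-1)/2) = 0` ((i), (ii)), every meromorphic continuation of the `L`-function has the order
  `0 = dim V^((m-1)/2)` at the centre ((iii)) and its leading coefficient is `q det Π` with a rational number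
  `q ≠ 0` ((iv)).

The second part holds whenever all the `D_S` are `Good` (an explicit condition), and whenever the Selmer groups
of the endomorphism `√-3` of all the `E_S` are trivial (`TrivSel`) and `a` is in the class `Cls`, `AdmA`.  In
this class the proportion of the latter `a` tends to `p_0 ^ C(m, h)`,
`p_0 = ∏_{i ≥ 0} (1 - 3 ^ (-(2 i + 1))) = 0.6390…`: `0.639`, `0.1065`, `0.00008`.

The finiteness, `L ≠ 0` and the law are from `MP_b8021b_nt.AllDiagonalCubicsByHeight` (files `H451/BB`,
`H451/JB`).  New is the rationality of the `m = 5, 7` central values, of degree `10` and `42`, with the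
period; the formula for one curve `E_D` is `H508.Y.rat_val` of `MP_29b22a_nt.MoreThanHalfOfTheTwists`
(helper508).
-/

set_option autoImplicit false

namespace Pool.Agent.Results.MP_29b22a_nt.DiagonalCubicsByHeight

open NumberField Pool.Agent.H451.CubT
open scoped Classical

/-- **The conjecture of Beilinson for a positive proportion of all diagonal cubic hypersurfaces** of
dimension `1`, `3`, `5` over `K = ℚ(√-3)`, and the rationality of the quotient of the central value by the
determinant of the periods for all of them that are general and good at `3`. -/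
theorem result (K : Type) [Field K] [NumberField K] [IsCyclotomicExtension {3} ℚ K] (m : ℕ)
    (hm : m = 3 ∨ m = 5 ∨ m = 7) :
    -- (1) the numbers of points of `V` and of the `E_S`
    (∀ a : Fin m → 𝓞 K, (∀ i, a i ≠ 0) → Mot a) ∧
    -- (2) the period matrices exist and are invertible
    ((∃ δ : K, δ ^ 2 = -3) ∧ (∀ a : Fin m → 𝓞 K, (∀ i, a i ≠ 0) → ∀ τ : K →+* ℂ,
      ∃ M : Idx m → PeriodPair, IsPer τ a M) ∧
      ∀ (τ : K →+* ℂ) (δ : K) (M : Idx m → PeriodPair), δ ^ 2 = -3 → (PM τ δ M).det ≠ 0) ∧
    -- (3) the central value of the `L`-function of every general hypersurface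
    (∀ a : Fin m → 𝓞 K, (∀ i, ¬ (3 : ℤ) ∣ Algebra.norm ℤ (a i)) →
      (∀ S : Idx m, ∀ u c : 𝓞 K, IsUnit u → DS a S.1 ≠ u * c ^ 3) →
      Formula a ∧ ((∀ S : Idx m, Good (DS a S.1)) → AllParts a)) ∧
    -- (4) all the parts for a positive proportion of all the hypersurfaces
    (∃ c : ℝ, 0 < c ∧ ∃ X₀ : ℕ, ∀ X : ℕ, X₀ ≤ X →
      c * ({a : Fin m → 𝓞 K | ∀ i, a i ≠ 0 ∧ Algebra.norm ℤ (a i) ≤ X}.ncard : ℝ) ≤
        ({a : Fin m → 𝓞 K | (∀ i, a i ≠ 0 ∧ Algebra.norm ℤ (a i) ≤ X) ∧ AllParts a}.ncard : ℝ)) ∧
    -- (5) the class, of positive proportion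
    (∃ c : ℝ, 0 < c ∧ ∃ X₀ : ℕ, ∀ X : ℕ, X₀ ≤ X →
      c * (X : ℝ) ^ m ≤ ({a : Fin m → 𝓞 K | (∀ i, Cls (a i) ∧ Algebra.norm ℤ (a i) ≤ X) ∧
        AdmA a}.ncard : ℝ)) ∧
    -- (6) all the parts for the hypersurfaces of the class with trivial Selmer groups
    (∀ a : Fin m → 𝓞 K, (∀ i, Cls (a i)) → AdmA a → Pool.Agent.H451.JB.TrivSel a → AllParts a) ∧
    -- (7) their share
    Filter.Tendsto (fun X : ℕ =>
      ({a : Fin m → 𝓞 K | (∀ i, Cls (a i) ∧ Algebra.norm ℤ (a i) ≤ X) ∧ AdmA a ∧
        Pool.Agent.H451.JB.TrivSel a}.ncard : ℝ) /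
      ({a : Fin m → 𝓞 K | (∀ i, Cls (a i) ∧ Algebra.norm ℤ (a i) ≤ X) ∧ AdmA a}.ncard : ℝ))
      Filter.atTop (nhds ((∏' i : ℕ, (1 - (1 / 3 : ℝ) ^ (2 * i + 1))) ^
        m.choose ((m - 3) / 2))) :=
  Pool.Agent.H451.PV.final_PV K m hm

end Pool.Agent.Results.MP_29b22a_nt.DiagonalCubicsByHeight
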