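import Mathlib
import Pool.Agent.H508.Y.A7
import Pool.Agent.H508.W.Kl
import Pool.Agent.H428.AX.Law

/-!
# Beilinson's conjecture (i) - (iv) for more than half of all the curves `y² + B y = x³` over `ℚ(√-3)`
# and for simultaneous cubic twists

`K = ℚ(√-3)`, and `E_B` is the elliptic curve `y² + B y = x³` over `K`, a cubic twist of `y² + y = x³`.
`B` runs through ALL the cube-free elements of `𝓞 K` which are prime to `3`; there are at least `c X` such `B`
of norm at most `X`.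

We consider the conjecture of Beilinson for `i = m = 1` and for the abelian varieties over `ℚ`

  `X = ∏_i R_{K/ℚ} E_{B_i}`,   of dimension `2 #{i}`,

in particular for the Weil restriction `R_{K/ℚ} E_B` of each curve (or, which amounts to the same for
(i), (iii), (iv), for `E_B` as a smooth projective curve over `ℚ`).

* `V¹ = CH¹(X)⁰ ⊗ ℚ` is `X(ℚ) ⊗ ℚ`, and `X(ℚ) = ∏_i E_{B_i}(K)` (`V`).
* `L(X, s)` is the product of the `L(E_{B_i}/K, s)`, Mathlib's `WeierstrassCurve.LSeries`.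
* `H⁰(R_{K/ℚ} E_B, Ω¹)` is the `K`-vector space generated by the differential `ν = dx / (2 y + B)`; it has the
  basis `ν, a ν` over `ℚ`, where `a² = -3`.  Let `τ` be one of the two embeddings of `K` in `ℂ`, and let `Λ`
  be the lattice of the periods of `ν` on `E_B^τ(ℂ)`, that is the lattice with `g₂ = 0` and
  `g₃ = -τ(B)²`: `x = ℘(z)`, `2 y + B = ℘'(z)` satisfy `(2 y + B)² = 4 x³ + B²`.  The space
  `H¹(X_{/ℝ}, ℝ)` is, for `X = R_{K/ℚ} E_B`, the space of the invariants of the complex conjugation in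
  `H¹(X(ℂ), ℝ) = Hom(Λ, ℝ) × Hom(Λ̄, ℝ)`, so `Hom(Λ, ℝ)`, and the map
  `F¹ H¹_DR(X_{/ℝ}) → H¹(X_{/ℝ}, ℝ)` is given by the real parts of the periods.  So its matrix is the
  matrix of the real parts of `ω₁, ω₂` and of `τ(a) ω₁, τ(a) ω₂`, where `ω₁, ω₂` is a basis of `Λ`.  The
  period matrix `Π` of `X` is the block diagonal matrix with these blocks (`periods`).

(1), (2) For ALL the cube-free `B_i` prime to `3` (not units) `L(X, s)` is entire and
  `L(X, 1) = q det Π` with a rational number `q` (which may be zero).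

(3) The corank of `B` is a number `r` defined by the cubic residue symbols of the prime factors of `B` (see
  below).  If all the `B_i` are not excluded (see below) and of corank zero, the conjecture holds for `X`:
  `V¹ = 0` (so (i) and (ii) hold), the order of vanishing of `L(X, s)` at `s = 1` is zero ((iii)), and
  `L*(X, 1) = L(X, 1) = q det Π` with a rational number `q ≠ 0` ((iv); the determinant of the pairing on the
  space zero is one).

(4) So the conjecture holds for `R_{K/ℚ} E_B` for more than `56.8 %` of ALL the cube-free `B` prime to `3`,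
  ordered by the norm.

(5) JOINT LAW.  Let `A_1, …, A_m` be cube-free and prime to `3`, no quotient `A_i / A_j`, `i ≠ j`, a cube, and
  `B_i = A_i D`, where `D` runs through ALL the cube-free elements prime to `3` and to the `A_i`.  The share of
  the `D` for which no `B_i` is excluded (or a unit) is `(9 - n) / 9`, `n = classes A ≤ m`, and among these `D`
  the coranks of `B_1, …, B_m` are independent with the law `p_r = p_0 / ∏_{1 ≤ i ≤ r} (3^i - 1)`,
  `p_0 = ∏_{i ≥ 0} (1 - 3^{-(2 i + 1)}) = 0.6390…`.  So the conjecture holds simultaneously for all the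
  `2 ^ m` abelian varieties `X_S = ∏_{i ∈ S} R_{K/ℚ} E_{B_i}` for a share of at least `(9 - n) / 9 * p_0 ^ m`
  of all the `D`.

The excluded elements and the corank.  Every `B` which is cube-free and prime to `3` is
`± ω ^ k ∏ π_i ^ e_i` with different primes `π_i ≡ 1` modulo `3`, `e_i = 1, 2` and a unique `k` modulo `3`.
`B` is excluded if `B ≡ ± 1` modulo `3` and `N B ≡ 1` modulo `9`.  The corank `r` of `B` is defined by the
cubic residue symbols `χ_{ji} = (π_i / π_j)_3` and `q_j = (N π_j - 1) / 3` (so that `(ω / π_j)_3 = q_j`): the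
system `∑_i e_i χ_{ji} (v_i - v_j) = k q_j v_j` over the field with three elements has `3 ^ r` solutions if
`k ≠ 0` and `3 ^ (r + 1)` solutions if `k = 0`.

In general `B` divided by its conjugate is not a cube up to sign; then `E_B` is not isogenous to its conjugate
and `R_{K/ℚ} E_B` is a simple abelian surface over `ℚ`, so that the results on elliptic curves over `ℚ` do not
apply.

The law for all the cube-free elements (from the squarefree ones, `D = c² D'` and dominated convergence) is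
due to helper428 (`Pool/Agent/H428/AX`), the joint law for the squarefree elements to helper462
(`Pool/Agent/H462/JL`).

## Proof

`V¹ = 0`, `L(E_B/K, 1) ≠ 0` and the joint law of the coranks are from the engine of
`MP_cd906c_nt.CubicTwistsAllClasses` (helper462, files `H462/CTU` and `H462/JL`).  New is part (iv), the
rationality.  By the theory of the regularized Eisenstein series `L(E_B/K, 1) = |Ω|² |b|²`, where `Ω` is the
period of `y² + y = x³` and `b` is a finite sum, with the character of the cubic residue symbols as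
coefficients, of the values of `℘'(z) / (℘(z) - ℘(t))` at points of finite order (`Y/A3`).  An automorphism
`σ` of `ℂ` which fixes `ω` acts on the points of finite order by the multiplication by some `u` of `ℤ[ω]`
prime to the conductor, so that `σ(b) = χ(u)⁻¹ b` (`Y/A2`).  By Chebotarev's theorem and the congruence of
Kronecker `℘(π z) ≡ ℘(z)^{N π}`, applied to a prime `π ≡ u` such that `σ` is a Frobenius element at `π`
on a field which contains `∛B` (`Y/A1`), and by the cubic reciprocity law, `σ(∛B) = χ(u) ∛B` (`Y/A4`).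
So `∛B b` is in `K`, and its norm is rational (`Y/A5`); the lattice of `E_B` is `Ω ∛B⁻¹ ℤ[ω]`.
-/

set_option autoImplicit false

open NumberField Filter
open scoped Classical Topology TensorProduct

namespace Pool.Agent.Results.MP_29b22a_nt.MoreThanHalfOfTheTwists

/-- The curve `E_B : y² + B y = x³`. -/
def curve {K : Type} [Field K] (B : K) : WeierstrassCurve K := ⟨0, 0, B, 0, 0⟩

section
variable {K : Type} [Field K] [NumberField K] {ι : Type} [Fintype ι]

/-- `V¹ = CH¹(X)⁰ ⊗ ℚ = X(ℚ) ⊗ ℚ`, where `X(ℚ) = ∏ E_{B_i}(K)`. -/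
abbrev V (B : ι → K) : Type := ℚ ⊗[ℤ] (∀ i, (curve (B i)).toAffine.Point)

/-- `L(X, s)`, the product of the `L(E_{B_i}/K, s)`, for `Re s > 3/2`. -/
noncomputable def LProduct (B : ι → K) (s : ℂ) : ℂ := ∏ i, (curve (B i)).LSeries s

/-- `Φ` is a continuation of `L(X, s)` to a meromorphic function on a connected open set which contains `1`
and the half plane `Re s > 3/2`. -/
def IsContinuation (B : ι → K) (Φ : ℂ → ℂ) : Prop :=
  ∃ U : Set ℂ, IsOpen U ∧ IsPreconnected U ∧ 1 ∈ U ∧ (∀ s : ℂ, 3 / 2 < s.re → s ∈ U) ∧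
    MeromorphicOn Φ U ∧ ∀ s : ℂ, 3 / 2 < s.re → Φ s = LProduct B s

/-- `L(X, s)` converges absolutely for `Re s > 3/2` and has an analytic continuation to the whole
plane. -/
def EntireLSeries (B : ι → K) : Prop :=
  ∃ Φ : ℂ → ℂ, Differentiable ℂ Φ ∧ ∀ s : ℂ, 3 / 2 < s.re →
    (∀ i, LSeriesSummable ((fun n : ℤ => (n : ℂ)) ∘ (curve (B i)).LFunction) s) ∧
      Φ s = LProduct B s

/-- `M` is a basis `(ω₁, ω₂)` of the lattice of the periods of `dx / (2 y + B)` on the elliptic curve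
`y² + τ(B) y = x³` over `ℂ`, that is, of the lattice with `g₂ = 0` and `g₃ = -τ(B)²`. -/
def IsPeriodLattice (τ : K →+* ℂ) (B : K) (M : PeriodPair) : Prop :=
  M.g₂ = 0 ∧ M.g₃ = -(τ B) ^ 2

/-- The period matrix `Π`: block diagonal, with blocks the real parts of the periods `ω₁, ω₂` of
`ν = dx / (2 y + B_i)` and of the periods of `a ν`. -/
noncomputable def periods (τ : K →+* ℂ) (a : K) (M : ι → PeriodPair) :
    Matrix (Fin 2 × ι) (Fin 2 × ι) ℝ :=
  Matrix.blockDiagonal fun i =>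
    !![(M i).ω₁.re, (M i).ω₂.re; (τ a * (M i).ω₁).re, (τ a * (M i).ω₂).re]

/-- **Part (iv) up to zero**: every entire continuation of `L(X, s)` has at `1` the value `q det Π` with a
rational number `q` (`0` is allowed). -/
def PeriodFormula (B : ι → K) : Prop :=
  ∀ Φ : ℂ → ℂ, Differentiable ℂ Φ → (∀ s : ℂ, 3 / 2 < s.re → Φ s = LProduct B s) →
    ∀ (τ : K →+* ℂ) (a : K) (M : ι → PeriodPair), a ^ 2 = -3 →
      (∀ i, IsPeriodLattice τ (B i) (M i)) → ∃ q : ℚ, Φ 1 = q * (periods τ a M).det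

/-- **The conjecture** for `X = ∏ R_{K/ℚ} E_{B_i}`, with `V¹ = 0`. -/
structure AllParts (B : ι → K) : Prop where
  /-- (H1) -/
  entire : EntireLSeries B
  /-- `X(ℚ)` is finite -/
  finite : Finite (∀ i, (curve (B i)).toAffine.Point)
  /-- `V¹ = 0`, so that (i) and (ii) hold -/
  zero : Subsingleton (V B)
  /-- (iii): the order of every continuation of `L(X, s)` at `1` is the dimension of `V¹` -/
  order : ∀ Φ : ℂ → ℂ, IsContinuation B Φ →
    meromorphicOrderAt Φ 1 = ((Module.finrank ℚ (V B) : ℕ) : ℤ)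
  /-- (iv): the leading coefficient of every continuation of `L(X, s)` at `1` is `q det Π` with a rational
  number `q ≠ 0` -/
  value : ∀ Φ : ℂ → ℂ, IsContinuation B Φ → ∀ (τ : K →+* ℂ) (a : K) (M : ι → PeriodPair),
    a ^ 2 = -3 → (∀ i, IsPeriodLattice τ (B i) (M i)) →
      ∃ q : ℚ, q ≠ 0 ∧ meromorphicTrailingCoeffAt Φ 1 = q * (periods τ a M).det

/-- `B` is cube-free and prime to `3`. -/
def CubeFreePrimeToThree (B : 𝓞 K) : Prop :=
  (∀ π : 𝓞 K, Prime π → ¬ π ^ 3 ∣ B) ∧ ¬ (3 : ℤ) ∣ Algebra.norm ℤ B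

/-- `B` is `± 1` modulo `3` and its norm is `1` modulo `9`. -/
def Excluded (B : 𝓞 K) : Prop := (3 : 𝓞 K) ∣ B ^ 2 - 1 ∧ (9 : ℤ) ∣ Algebra.norm ℤ B - 1

/-- `B` is not a unit and not excluded. -/
def Good (B : 𝓞 K) : Prop := ¬ IsUnit B ∧ ¬ Excluded B

/-- `B` is the product of `± ω ^ k` and of the powers `π i ^ e i` of different primes `π i`, which are
`1` modulo `3`, and the cubic residue symbol of `π i` modulo `π j` is `ω ^ χ j i`. -/
def IsFactorization (ω B : 𝓞 K) (k : ZMod 3) (n : ℕ) (π : Fin n → 𝓞 K) (e : Fin n → ZMod 3)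
    (χ : Fin n → Fin n → ZMod 3) : Prop :=
  (∀ i, Prime (π i) ∧ (3 : 𝓞 K) ∣ π i - 1 ∧ e i ≠ 0) ∧ Function.Injective π ∧
  (B = ω ^ k.val * ∏ i, π i ^ (e i).val ∨ B = -(ω ^ k.val * ∏ i, π i ^ (e i).val)) ∧
  ∀ i j, i ≠ j →
    π j ∣ π i ^ (((Algebra.norm ℤ (π j)).natAbs - 1) / 3) - ω ^ (χ j i).val

/-- The number of the solutions of the system `∑_i e_i χ_{ji} (v_i - v_j) = k q_j v_j`, where
`q_j = (N π_j - 1) / 3`, over the field with three elements. -/
noncomputable def solutions (k : ZMod 3) {n : ℕ} (π : Fin n → 𝓞 K) (e : Fin n → ZMod 3)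
    (χ : Fin n → Fin n → ZMod 3) : ℕ :=
  Nat.card {v : Fin n → ZMod 3 // ∀ j, ∑ i, e i * χ j i * (v i - v j) =
    k * (((Algebra.norm ℤ (π j) - 1) / 3 : ℤ) : ZMod 3) * v j}

/-- `B` has the corank `r`. -/
def Corank (B : 𝓞 K) (r : ℕ) : Prop :=
  ∃ (ω : 𝓞 K) (k : ZMod 3) (n : ℕ) (π : Fin n → 𝓞 K) (e : Fin n → ZMod 3)
    (χ : Fin n → Fin n → ZMod 3),
    ω ^ 2 + ω + 1 = 0 ∧ IsFactorization ω B k n π e χ ∧
      solutions k π e χ = if k = 0 then 3 ^ (r + 1) else 3 ^ r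

/-- All the cube-free `B` prime to `3`, of norm at most `X`. -/
def curves (K : Type) [Field K] [NumberField K] (X : ℕ) : Set (𝓞 K) :=
  {B : 𝓞 K | Algebra.norm ℤ B ≤ X ∧ CubeFreePrimeToThree B}

/-- The cube-free `D` which are prime to `3` and to the `A i`, of norm at most `X`. -/
def all {m : ℕ} (A : Fin m → 𝓞 K) (X : ℕ) : Set (𝓞 K) :=
  {D : 𝓞 K | Algebra.norm ℤ D ≤ X ∧ CubeFreePrimeToThree D ∧ ∀ i, IsCoprime (A i) D}

/-- The `D` of `all` for which no `A i * D` is a unit or excluded. -/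
def upTo {m : ℕ} (A : Fin m → 𝓞 K) (X : ℕ) : Set (𝓞 K) := {D ∈ all A X | ∀ i, Good (A i * D)}

/-- The number of the different pairs `(A_i ^ 2 mod 3, N(A_i) mod 9)`. -/
noncomputable def classes {m : ℕ} (A : Fin m → 𝓞 K) : ℕ :=
  (Set.range fun i => (Ideal.Quotient.mk (Ideal.span {(3 : 𝓞 K)}) (A i ^ 2),
    ((Algebra.norm ℤ (A i) : ℤ) : ZMod 9))).ncard

/-- The numbers `A_i D`, `i ∈ S`, in `K`. -/
def family {m : ℕ} (A : Fin m → 𝓞 K) (D : 𝓞 K) (S : Finset (Fin m)) : S → K :=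
  fun i => ((A i * D : 𝓞 K) : K)

end

/-- `p_0 = ∏_{i ≥ 0} (1 - 3^{-(2 i + 1)})`. -/
noncomputable def p0 : ℝ := ∏' i : ℕ, (1 - (1 / 3 : ℝ) ^ (2 * i + 1))

/-- `p_r = p_0 / ∏_{1 ≤ i ≤ r} (3 ^ i - 1)`. -/
noncomputable def pr (r : ℕ) : ℝ := p0 / ∏ i ∈ Finset.range r, ((3 : ℝ) ^ (i + 1) - 1)

/-- The share of the elements with the property `P` in the sets `C X` tends to `w`. -/
def HasShare {α : Type} (C : ℕ → Set α) (P : α → Prop) (w : ℝ) : Prop :=
  Tendsto (fun X : ℕ => (({D ∈ C X | P D}.ncard : ℕ) : ℝ) / ((C X).ncard : ℝ)) atTop (𝓝 w)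

section
variable {K : Type} [Field K] {ι : Type} [Fintype ι]

lemma periods_det (τ : K →+* ℂ) (a : K) (M : ι → PeriodPair) :
    (periods τ a M).det = ∏ i, Pool.Agent.H508.Y.pdet (τ a) (M i) := by
  unfold periods Pool.Agent.H508.Y.pdet
  rw [Matrix.det_blockDiagonal]
  exact Finset.prod_congr rfl fun i _ => by rw [Matrix.det_fin_two_of]

lemma sq_three (τ : K →+* ℂ) {a : K} (ha : a ^ 2 = -3) : (τ a) ^ 2 = -3 := by
  rw [← map_pow, ha, map_neg, map_ofNat]

variable [NumberField K]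

/-- the parts for all the curves give the parts for the product -/
theorem formula_prod {B : ι → K} (h : ∀ i,
    (∃ Φ : ℂ → ℂ, Differentiable ℂ Φ ∧ ∀ s : ℂ, 3 / 2 < s.re →
      LSeriesSummable ((fun n : ℤ => (n : ℂ)) ∘ (curve (B i)).LFunction) s ∧
        Φ s = (curve (B i)).LSeries s) ∧
    ∀ Φ : ℂ → ℂ, Differentiable ℂ Φ → (∀ s : ℂ, 3 / 2 < s.re → Φ s = (curve (B i)).LSeries s) →
      ∀ (τ : K →+* ℂ) (a : K), a ^ 2 = -3 → ∀ M : PeriodPair, M.g₂ = 0 → M.g₃ = -(τ (B i)) ^ 2 →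
        ∃ q : ℚ, Φ 1 = q * Pool.Agent.H508.Y.pdet (τ a) M) :
    EntireLSeries B ∧ PeriodFormula B := by
  choose h1 h2 using h
  choose Ψ h3 h4 using h1
  have hd : Differentiable ℂ (fun s => ∏ i, Ψ i s) := Pool.Agent.H508.Y.prod_entire h3
  have hL : ∀ s : ℂ, 3 / 2 < s.re → ∏ i, Ψ i s = LProduct B s := fun s hs =>
    Finset.prod_congr rfl fun i _ => (h4 i s hs).2
  refine ⟨⟨fun s => ∏ i, Ψ i s, hd, fun s hs => ⟨fun i => (h4 i s hs).1, hL s hs⟩⟩,
    fun Φ hΦ hΦL τ a M ha hM => ?_⟩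
  have he : Φ = fun s => ∏ i, Ψ i s := Pool.Agent.H508.Y.ent_eq hΦ hd fun s hs => by
    rw [hΦL s hs, hL s hs]
  have hq : ∀ i, ∃ q : ℚ, Ψ i 1 = q * Pool.Agent.H508.Y.pdet (τ a) (M i) := fun i =>
    h2 i (Ψ i) (h3 i) (fun s hs => (h4 i s hs).2) τ a ha (M i) (hM i).1 (hM i).2
  choose q hq using hq
  refine ⟨∏ i, q i, ?_⟩
  rw [he, periods_det]
  show ∏ i, Ψ i 1 = _
  rw [Finset.prod_congr rfl fun i _ => hq i, Finset.prod_mul_distrib]
  push_cast
  rfl

/-- the parts for the product, when no value is zero -/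
theorem allParts_prod {B : ι → K} (h : EntireLSeries B ∧ PeriodFormula B)
    (hfin : ∀ i, Finite (curve (B i)).toAffine.Point)
    (hv : ∀ i, ∃ Ψ : ℂ → ℂ, Differentiable ℂ Ψ ∧
      (∀ s : ℂ, 3 / 2 < s.re → Ψ s = (curve (B i)).LSeries s) ∧ Ψ 1 ≠ 0) : AllParts B := by
  choose Ψ h3 h4 h5 using hv
  have hd : Differentiable ℂ (fun s => ∏ i, Ψ i s) := Pool.Agent.H508.Y.prod_entire h3
  have hL : ∀ s : ℂ, 3 / 2 < s.re → ∏ i, Ψ i s = LProduct B s := fun s hs =>
    Finset.prod_congr rfl fun i _ => h4 i s hs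
  have hne : ∏ i, Ψ i 1 ≠ 0 := Finset.prod_ne_zero_iff.2 fun i _ => h5 i
  have hF : Finite (∀ i, (curve (B i)).toAffine.Point) := inferInstance
  have hsub : Subsingleton (V B) := Pool.Agent.H508.Y.tensor_zero
  have hcont : ∀ Φ : ℂ → ℂ, IsContinuation B Φ →
      meromorphicOrderAt Φ 1 = 0 ∧ meromorphicTrailingCoeffAt Φ 1 = ∏ i, Ψ i 1 := by
    rintro Φ ⟨U, hU, hc, h1, hs, hm, hL'⟩
    exact Pool.Agent.H508.Y.cont_order (Ψ := fun s => ∏ i, Ψ i s)
      (Pool.Agent.H508.Y.cont_eq hU hc h1 hs hm hd fun s hs' => by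
        rw [hL' s hs', hL s hs']) hd hne
  refine ⟨h.1, hF, hsub, fun Φ hΦ => ?_, fun Φ hΦ τ a M ha hM => ?_⟩
  · rw [(hcont Φ hΦ).1, Module.finrank_zero_of_subsingleton]
    rfl
  · obtain ⟨q, hq⟩ := h.2 (fun s => ∏ i, Ψ i s) hd hL τ a M ha hM
    refine ⟨q, ?_, by rw [(hcont Φ hΦ).2, hq]⟩
    rintro rfl
    apply hne
    rw [hq]
    simp

end

lemma eventually_share {n m : ℕ → ℕ} {L : ℝ}
    (h : Filter.Tendsto (fun X : ℕ => (n X : ℝ) / (m X : ℝ)) Filter.atTop (nhds L)) (ε : ℝ)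
    (hε : 0 < ε) : ∃ X₀ : ℕ, ∀ X : ℕ, X₀ ≤ X → (L - ε) * (m X : ℝ) ≤ (n X : ℝ) := by
  obtain ⟨X₀, h1⟩ := Filter.eventually_atTop.1 ((tendsto_order.1 h).1 (L - ε) (by linarith))
  refine ⟨X₀, fun X hX => ?_⟩
  have h2 := h1 X hX
  rcases Nat.eq_zero_or_pos (m X) with h0 | h0
  · rw [h0, Nat.cast_zero, mul_zero]
    exact Nat.cast_nonneg _
  · rw [lt_div_iff₀ (by exact_mod_cast h0)] at h2
    exact h2.le

section
variable {K : Type} [Field K] [NumberField K] [IsCyclotomicExtension {3} ℚ K]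

/-- the conjecture for the products of curves of corank zero -/
theorem parts {ι : Type} [Fintype ι] {B : ι → 𝓞 K} (h : ∀ i, Good (B i) ∧ Corank (B i) 0) :
    AllParts (fun i => (B i : K)) := by
  have hG : ∀ i, Finite (curve (B i : K)).toAffine.Point ∧ ∃ Ψ : ℂ → ℂ, Differentiable ℂ Ψ ∧
      (∀ s : ℂ, 3 / 2 < s.re → Ψ s = (curve (B i : K)).LSeries s) ∧ Ψ 1 ≠ 0 := by
    intro i
    obtain ⟨-, -, -, h3, L, c, q, ⟨h4, h5⟩, -, -, -, h8, -, -, h11⟩ :=
      Pool.Agent.H508.W.all_K (h i).1.1 (h i).1.2 (h i).2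
    refine ⟨(h3.2 rfl).1, L, h4, fun s hs => (h5 s hs).2, fun hL => ?_⟩
    obtain ⟨σ⟩ : Nonempty (K →+* ℂ) := inferInstance
    obtain ⟨⟨Λ, k1, k2⟩, k3⟩ := h8 σ
    have k4 := k3 Λ k1 k2
    unfold Pool.Agent.H428.TP.quo at k4
    rw [hL, zero_mul, zero_mul, zero_div] at k4
    exact (h11.2 rfl).1 (by exact_mod_cast k4.symm)
  exact allParts_prod (formula_prod fun i => Pool.Agent.H508.Y.all_cor (h i).2 (h i).1.1)
    (fun i => (hG i).1) fun i => (hG i).2

/-- the law for the simultaneous twists -/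
theorem law {m : ℕ} (hm : 0 < m) {A : Fin m → 𝓞 K} (hA : ∀ i, CubeFreePrimeToThree (A i))
    (hne : ∀ i j, i ≠ j → ∀ u : K, (A i : K) ≠ u ^ 3 * A j) :
    (∀ X, (all A X).Finite) ∧
    (∃ c : ℝ, 0 < c ∧ ∃ X₀ : ℕ, ∀ X : ℕ, X₀ ≤ X → c * X ≤ ((all A X).ncard : ℝ)) ∧
    classes A ≤ m ∧ classes A ≤ 9 ∧
    HasShare (all A) (fun D => ∀ i, Good (A i * D)) ((9 - classes A) / 9) ∧
    (∀ r : Fin m → ℕ, HasShare (all A) (fun D => (∀ i, Good (A i * D)) ∧
      ∀ i, Corank (A i * D) (r i)) ((9 - classes A) / 9 * ∏ i, pr (r i))) ∧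
    (classes A < 9 → ∀ r : Fin m → ℕ,
      HasShare (upTo A) (fun D => ∀ i, Corank (A i * D) (r i)) (∏ i, pr (r i))) := by
  have : Nonempty (Fin m) := ⟨⟨0, hm⟩⟩
  have hNe : Pool.Agent.H462.JL.NeK A (fun _ => false) := fun i j hij u => by
    rw [if_pos rfl]
    exact hne i j hij u
  have hcl : Pool.Agent.H462.JL.cellsK A (fun _ => false) = classes A := rfl
  obtain ⟨h1, h2, h3, h4⟩ := Pool.Agent.H428.AX.final_law hA
  obtain ⟨-, -, h5, -⟩ := Pool.Agent.H462.JL.finalJ K A (fun _ => false) hA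
  rw [hcl] at h3 h4 h5
  have hlaw : ∀ r : Fin m → ℕ, HasShare (all A) (fun D => (∀ i, Good (A i * D)) ∧
      ∀ i, Corank (A i * D) (r i)) ((9 - classes A) / 9 * ∏ i, pr (r i)) := h4 hNe
  have hcm : classes A ≤ m := by
    unfold classes
    rw [← Set.image_univ]
    refine (Set.ncard_image_le (Set.toFinite _)).trans ?_
    rw [Set.ncard_univ, Nat.card_eq_fintype_card, Fintype.card_fin]
  refine ⟨h1, h2, hcm, h5, h3, hlaw, fun h9 r => ?_⟩
  obtain ⟨c, hc, X₀, h6⟩ := h2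
  have hw : ((9 - classes A) / 9 : ℝ) ≠ 0 := by
    have h10 : (classes A : ℝ) < 9 := by exact_mod_cast h9
    have : (0 : ℝ) < (9 - classes A) / 9 := by linarith
    exact this.ne'
  have h7 := (hlaw r).div h3 hw
  rw [mul_div_cancel_left₀ _ hw] at h7
  refine h7.congr' ?_
  filter_upwards [eventually_ge_atTop (max X₀ 1)] with X hX
  have h8 : ((all A X).ncard : ℝ) ≠ 0 := by
    have h11 := h6 X ((le_max_left _ _).trans hX)
    have h12 : (1 : ℝ) ≤ X := by exact_mod_cast (le_max_right _ _).trans hX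
    have : 0 < c * (X : ℝ) := by positivity
    exact (this.trans_le h11).ne'
  have e1 : {D ∈ upTo A X | ∀ i, Corank (A i * D) (r i)} =
      {D ∈ all A X | (∀ i, Good (A i * D)) ∧ ∀ i, Corank (A i * D) (r i)} := by
    ext D
    exact and_assoc
  show _ = (({D ∈ upTo A X | ∀ i, Corank (A i * D) (r i)}.ncard : ℕ) : ℝ) / ((upTo A X).ncard : ℝ)
  rw [e1]
  exact div_div_div_cancel_right₀ h8 _ _

end

/-- **Main theorem.** -/
theorem result (K : Type) [Field K] [NumberField K] [IsCyclotomicExtension {3} ℚ K] :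
    -- (1) the period matrices
    (∃ a : K, a ^ 2 = -3) ∧
    (∀ (B : K) (τ : K →+* ℂ), B ≠ 0 → ∃ M : PeriodPair, IsPeriodLattice τ B M) ∧
    (∀ (ι : Type) (_ : Fintype ι) (τ : K →+* ℂ) (a : K) (M : ι → PeriodPair), a ^ 2 = -3 →
      (periods τ a M).det ≠ 0) ∧
    -- (2) for all the cube-free `B_i`: `L(X, s)` is entire and `L(X, 1)` is a rational multiple of `det Π`
    (∀ (ι : Type) (_ : Fintype ι) (B : ι → 𝓞 K), (∀ i, CubeFreePrimeToThree (B i) ∧ ¬ IsUnit (B i)) →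
      EntireLSeries (fun i => (B i : K)) ∧ PeriodFormula (fun i => (B i : K))) ∧
    -- (3) the coranks; the conjecture for the products of curves of corank zero
    (∀ B : 𝓞 K, CubeFreePrimeToThree B → ¬ IsUnit B → ∃! r, Corank B r) ∧
    (∀ (ι : Type) (_ : Fintype ι) (B : ι → 𝓞 K), (∀ i, Good (B i) ∧ Corank (B i) 0) →
      AllParts (fun i => (B i : K))) ∧
    (0.639 < p0 ∧ p0 < 0.6391) ∧
    -- (4) the conjecture for more than half of all the curves
    (∃ c : ℝ, 0 < c ∧ ∃ X₀ : ℕ, ∀ X : ℕ, X₀ ≤ X → c * X ≤ ((curves K X).ncard : ℝ)) ∧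
    (∃ X₀ : ℕ, ∀ X : ℕ, X₀ ≤ X → 0.568 * ((curves K X).ncard : ℝ) ≤
      (({B ∈ curves K X | AllParts (fun _ : Fin 1 => (B : K))}.ncard : ℕ) : ℝ)) ∧
    -- (5) the simultaneous twists
    ∀ (m : ℕ) (A : Fin m → 𝓞 K), 0 < m → (∀ i, CubeFreePrimeToThree (A i)) →
      (∀ i j, i ≠ j → ∀ u : K, (A i : K) ≠ u ^ 3 * A j) →
      (∀ X, (all A X).Finite) ∧
      (∃ c : ℝ, 0 < c ∧ ∃ X₀ : ℕ, ∀ X : ℕ, X₀ ≤ X → c * X ≤ ((all A X).ncard : ℝ)) ∧
      classes A ≤ m ∧ classes A ≤ 9 ∧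
      HasShare (all A) (fun D => ∀ i, Good (A i * D)) ((9 - classes A) / 9) ∧
      (classes A < 9 → ∀ r : Fin m → ℕ,
        HasShare (upTo A) (fun D => ∀ i, Corank (A i * D) (r i)) (∏ i, pr (r i))) ∧
      (∀ ε : ℝ, 0 < ε → ∃ X₀ : ℕ, ∀ X : ℕ, X₀ ≤ X →
        ((9 - classes A) / 9 * p0 ^ m - ε) * ((all A X).ncard : ℝ) ≤
          (({D ∈ all A X | ∀ S : Finset (Fin m), AllParts (family A D S)}.ncard : ℕ) : ℝ)) := by
  have hcr : Pool.Agent.Y703.XL.cr 0 = p0 := by
    show (∏' i : ℕ, (1 - (1 / 3 : ℝ) ^ (2 * i + 1))) / ∏ i ∈ Finset.range 0, _ = p0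
    rw [Finset.prod_range_zero, div_one]
    rfl
  have hp00 : pr 0 = p0 := hcr
  obtain ⟨-, -, -, hp, -⟩ := Pool.Agent.XL6.finalXL K
  have hp' : 0.639 < p0 ∧ p0 < 0.6391 := by
    rw [← hcr]
    exact ⟨hp.1, hp.2.1⟩
  -- the curves
  let A1 : Fin 1 → 𝓞 K := fun _ => 1
  have hA1 : ∀ i, CubeFreePrimeToThree (A1 i) := by
    intro i
    refine ⟨fun π hπ hd => hπ.not_isUnit ?_, ?_⟩
    · exact isUnit_of_dvd_one ((dvd_pow_self π three_ne_zero).trans hd)
    · show ¬ (3 : ℤ) ∣ Algebra.norm ℤ (1 : 𝓞 K)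
      rw [map_one]
      norm_num
  have hne1 : ∀ i j : Fin 1, i ≠ j → ∀ u : K, ((A1 i : 𝓞 K) : K) ≠ u ^ 3 * (A1 j : 𝓞 K) :=
    fun i j hij => absurd (Subsingleton.elim i j) hij
  have hall1 : ∀ X, all A1 X = curves K X := by
    intro X
    ext D
    exact ⟨fun h => ⟨h.1, h.2.1⟩, fun h => ⟨h.1, h.2, fun _ => isCoprime_one_left⟩⟩
  obtain ⟨f1, f2, f3, -, -, f6, -⟩ := law one_pos hA1 hne1
  refine ⟨?_, fun B τ hB => ?_, fun ι _ τ a M ha => ?_,
    fun ι _ B hB => formula_prod fun i => Pool.Agent.H508.Y.all_B (hB i).1 (hB i).2,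
    fun B hB hu => Pool.Agent.H508.W.ex_cor hB hu, fun ι _ B hB => parts hB, hp', ?_, ?_,
    fun m A hm hA hne => ?_⟩
  · have hζ := IsCyclotomicExtension.zeta_spec 3 ℚ K
    set ζ := IsCyclotomicExtension.zeta 3 ℚ K
    have h7 : ζ ^ 2 + ζ + 1 = 0 := by
      have h8 : (ζ - 1) * (ζ ^ 2 + ζ + 1) = 0 := by linear_combination hζ.pow_eq_one
      exact (mul_eq_zero.1 h8).resolve_left (sub_ne_zero.2 (hζ.ne_one (by norm_num)))
    exact ⟨1 + 2 * ζ, by linear_combination 4 * h7⟩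
  · exact Pool.Agent.H508.Y.exists_period ((map_ne_zero τ).2 hB)
  · rw [periods_det]
    exact Finset.prod_ne_zero_iff.2 fun i _ => Pool.Agent.H508.Y.pdet_ne (sq_three τ ha) (M i)
  · obtain ⟨c, hc, X₀, h⟩ := f2
    exact ⟨c, hc, X₀, fun X hX => by rw [← hall1]; exact h X hX⟩
  · have h7 := f6 fun _ => 0
    have h8 : (8 : ℝ) / 9 * p0 ≤ (9 - classes A1) / 9 * ∏ _i : Fin 1, pr 0 := by
      rw [Fin.prod_univ_one, hp00]
      have h9 : (classes A1 : ℝ) ≤ 1 := by exact_mod_cast f3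
      have h10 : (8 : ℝ) / 9 ≤ (9 - classes A1) / 9 := by linarith
      exact mul_le_mul_of_nonneg_right h10 (by linarith [hp'.1])
    obtain ⟨X₀, k⟩ := eventually_share h7 ((9 - classes A1) / 9 * ∏ _i : Fin 1, pr 0 - 0.568)
      (by linarith [hp'.1])
    refine ⟨X₀, fun X hX => ?_⟩
    have h11 := k X hX
    rw [sub_sub_cancel] at h11
    rw [← hall1]
    refine h11.trans ?_
    norm_cast
    refine Set.ncard_le_ncard ?_ ((f1 X).subset fun D hD => hD.1)
    rintro D ⟨m1, m2, m3⟩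
    refine ⟨m1, parts fun _ => ⟨?_, ?_⟩⟩
    · have := m2 0
      rwa [show A1 0 * D = D from one_mul D] at this
    · have := m3 0
      rwa [show A1 0 * D = D from one_mul D] at this
  · obtain ⟨g1, g2, g3, g4, g5, g6, g7⟩ := law hm hA hne
    refine ⟨g1, g2, g3, g4, g5, g7, fun ε hε => ?_⟩
    have h7 := g6 fun _ => 0
    have hprod : ∏ _i : Fin m, pr 0 = p0 ^ m := by
      rw [Finset.prod_const, Finset.card_univ, Fintype.card_fin, hp00]
    rw [hprod] at h7
    obtain ⟨X₀, k⟩ := eventually_share h7 ε hε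
    refine ⟨X₀, fun X hX => (k X hX).trans ?_⟩
    norm_cast
    refine Set.ncard_le_ncard ?_ ((g1 X).subset fun D hD => hD.1)
    rintro D ⟨m1, m2, m3⟩
    exact ⟨m1, fun S => parts fun i => ⟨m2 i, m3 i⟩⟩

end Pool.Agent.Results.MP_29b22a_nt.MoreThanHalfOfTheTwists
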